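import Mathlib
import Pool.Agent.Lib.helper29.New21

set_option autoImplicit false

namespace Pool.Agent.Results.MP_6cabfd_co.Third

open Pool.Agent.Lib.H29.Conf Pool.Agent.Lib.H29.Astral

/-- There is a geometrically realizable (21_4) configuration without polycyclic realization. -/
theorem result : ∃ I : Fin 21 → Fin 21 → Prop, IsRegular 4 I ∧ (∃ P L, Realizes I P L) ∧
    ∀ (P : Fin 21 → ℂ) (L : Fin 21 → Set ℂ), EuRealizes I P L → ¬ Polycyclic P L :=
  ⟨inc, regular, exists_real, Pool.Agent.Lib.H29.New21.not_poly⟩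

end Pool.Agent.Results.MP_6cabfd_co.Third
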